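import Mathlib
import Pool.Agent.U309.ZF.Stm

/-!
# Project ZF, package FE

Growth in the strip from the functional equation (Phragmén–Lindelöf in `0 ≤ Re s ≤ 2`).
-/

set_option autoImplicit false

open Complex Filter Topology Set Asymptotics
open scoped ComplexConjugate

namespace Pool.Agent.U165.ZF.FE

open Pool.Agent.U309.ZF

/-- the quotient of the two sides of the functional equation -/
noncomputable def R (A : ℝ) (n : ℕ) (w : ℂ) (F : ℂ → ℂ) (s : ℂ) : ℂ :=
  w * (A : ℂ) ^ (1 - s) *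
    ((((2 * Real.pi : ℝ) : ℂ) ^ (2 * s - 2)) * (Gamma (2 - s) * (Gamma s)⁻¹)) ^ n * F (2 - s)

lemma fe_open {A : ℝ} {n : ℕ} {w : ℂ} {F Λ : ℂ → ℂ} (hA : 1 ≤ A) (h : IsCompleted A n w F Λ) (s : ℂ)
    (h0 : 0 < s.re) (h2 : s.re < 2) : F s = R A n w F s := by
  have hA0 : (A : ℂ) ≠ 0 := by
    have : A ≠ 0 := by positivity
    exact_mod_cast this
  have hpi : (((2 * Real.pi : ℝ)) : ℂ) ≠ 0 := by
    have : (2 * Real.pi : ℝ) ≠ 0 := by positivity
    exact_mod_cast this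
  have hG : Gamma s ≠ 0 := Gamma_ne_zero_of_re_pos h0
  have e1 := h.2.1 s h0
  have e2 := h.2.1 (2 - s) (by simp; linarith)
  have e3 := h.2.2 s
  rw [e1, e2] at e3
  have a1 : (A : ℂ) ^ ((2 - s) / 2) = (A : ℂ) ^ (1 - s) * (A : ℂ) ^ (s / 2) := by
    rw [← cpow_add _ _ hA0]; congr 1; ring
  have a2 : (((2 * Real.pi : ℝ)) : ℂ) ^ (-(2 - s)) =
      (((2 * Real.pi : ℝ)) : ℂ) ^ (2 * s - 2) * (((2 * Real.pi : ℝ)) : ℂ) ^ (-s) := by
    rw [← cpow_add _ _ hpi]; congr 1; ring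
  rw [a1, a2] at e3
  have hx : (A : ℂ) ^ (s / 2) ≠ 0 := by
    rw [Ne, cpow_eq_zero_iff]; exact fun h => hA0 h.1
  have hP : (((2 * Real.pi : ℝ)) : ℂ) ^ (-s) ≠ 0 := by
    rw [Ne, cpow_eq_zero_iff]; exact fun h => hpi h.1
  have hne : (A : ℂ) ^ (s / 2) * ((((2 * Real.pi : ℝ)) : ℂ) ^ (-s) * Gamma s) ^ n ≠ 0 :=
    mul_ne_zero hx (pow_ne_zero _ (mul_ne_zero hP hG))
  apply mul_left_cancel₀ hne
  rw [e3]
  unfold R
  have : (((2 * Real.pi : ℝ) : ℂ) ^ (2 * s - 2) * (((2 * Real.pi : ℝ)) : ℂ) ^ (-s) *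
      Gamma (2 - s)) ^ n = ((((2 * Real.pi : ℝ)) : ℂ) ^ (-s) * Gamma s) ^ n *
      ((((2 * Real.pi : ℝ) : ℂ) ^ (2 * s - 2)) * (Gamma (2 - s) * (Gamma s)⁻¹)) ^ n := by
    rw [← mul_pow]; congr 1; field_simp
  rw [this]; ring

lemma fe_line {A : ℝ} {n : ℕ} {w : ℂ} {F Λ : ℂ → ℂ} (hA : 1 ≤ A) (hF : Differentiable ℂ F)
    (h : IsCompleted A n w F Λ) (s : ℂ) (h0 : s.re = 0) : F s = R A n w F s := by
  have hA0 : (A : ℂ) ≠ 0 := by
    have : A ≠ 0 := by positivity
    exact_mod_cast this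
  have hpi : (((2 * Real.pi : ℝ)) : ℂ) ≠ 0 := by
    have : (2 * Real.pi : ℝ) ≠ 0 := by positivity
    exact_mod_cast this
  have hc : Tendsto (fun x : ℝ => s + (x : ℂ)) (𝓝[>] 0) (𝓝 s) := by
    have : Tendsto (fun x : ℝ => s + (x : ℂ)) (𝓝 0) (𝓝 (s + ((0 : ℝ) : ℂ))) := by
      apply Continuous.tendsto; fun_prop
    simp only [ofReal_zero, add_zero] at this
    exact this.mono_left nhdsWithin_le_nhds
  have hR : ContinuousAt (R A n w F) s := by
    have hg : ContinuousAt (fun s : ℂ => Gamma (2 - s)) s := by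
      have h1 : ContinuousAt Gamma (2 - s) := by
        apply (differentiableAt_Gamma (2 - s) ?_).continuousAt
        intro m hm
        have := congrArg Complex.re hm
        simp [h0] at this
        have hm0 : (0 : ℝ) ≤ m := Nat.cast_nonneg m
        linarith
      exact ContinuousAt.comp (f := fun s : ℂ => 2 - s) (g := Gamma) h1 (by fun_prop)
    have hgi : ContinuousAt (fun s : ℂ => (Gamma s)⁻¹) s :=
      (differentiable_one_div_Gamma s).continuousAt
    have hF1 : ContinuousAt (fun s : ℂ => F (2 - s)) s :=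
      ContinuousAt.comp (f := fun s : ℂ => 2 - s) (g := F) hF.continuous.continuousAt (by fun_prop)
    have hA1 : ContinuousAt (fun s : ℂ => (A : ℂ) ^ (1 - s)) s :=
      ContinuousAt.const_cpow (by fun_prop) (Or.inl hA0)
    have hp1 : ContinuousAt (fun s : ℂ => ((2 * Real.pi : ℝ) : ℂ) ^ (2 * s - 2)) s :=
      ContinuousAt.const_cpow (by fun_prop) (Or.inl hpi)
    unfold R
    exact ((continuousAt_const.mul hA1).mul ((hp1.mul (hg.mul hgi)).pow n)).mul hF1
  have t1 : Tendsto (fun x : ℝ => F (s + (x : ℂ))) (𝓝[>] 0) (𝓝 (F s)) :=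
    (hF.continuous.continuousAt.tendsto).comp hc
  have t2 : Tendsto (fun x : ℝ => R A n w F (s + (x : ℂ))) (𝓝[>] 0) (𝓝 (R A n w F s)) :=
    hR.tendsto.comp hc
  refine tendsto_nhds_unique (t1.congr' ?_) t2
  have : Ioo (0 : ℝ) 2 ∈ 𝓝[>] (0 : ℝ) := Ioo_mem_nhdsGT (by norm_num)
  filter_upwards [this] with x hx
  apply fe_open hA h
  · simp [h0]; exact hx.1
  · simp [h0]; exact hx.2

lemma gamma_ratio (s : ℂ) (h0 : s.re = 0) :
    ‖Gamma (2 - s) * (Gamma s)⁻¹‖ ≤ (1 + |s.im|) ^ 2 := by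
  by_cases hs : s = 0
  · subst hs
    simp
  · have him : s.im ≠ 0 := by
      intro h; exact hs (Complex.ext h0 h)
    have hG : Gamma s ≠ 0 := by
      apply Gamma_ne_zero
      intro m hm
      have := congrArg Complex.im hm
      simp at this
      exact him this
    have e1 : Gamma (2 - s) = (1 - s) * ((-s) * Gamma (-s)) := by
      rw [← Gamma_add_one (-s) (neg_ne_zero.mpr hs)]
      rw [show (-s + 1 : ℂ) = 1 - s by ring, ← Gamma_add_one (1 - s) ?_]
      · congr 1; ring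
      · intro h
        have := congrArg Complex.im h
        simp at this
        exact him this
    have e2 : -s = conj s := by
      apply Complex.ext
      · simp [h0]
      · simp
    have e3 : ‖Gamma (-s)‖ = ‖Gamma s‖ := by
      rw [e2, Gamma_conj, norm_conj]
    have hn : ‖s‖ = |s.im| := by
      have : s = (s.im : ℂ) * I := by
        apply Complex.ext <;> simp [h0]
      rw [this, norm_mul, norm_I, mul_one, norm_real, Real.norm_eq_abs]
      simp
    rw [e1, norm_mul, norm_mul, norm_mul, norm_inv, e3, norm_neg, hn]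
    have h1 : ‖1 - s‖ ≤ 1 + |s.im| := by
      calc ‖1 - s‖ ≤ ‖(1 : ℂ)‖ + ‖s‖ := norm_sub_le _ _
        _ = _ := by rw [hn, norm_one]
    have hGn : ‖Gamma s‖ ≠ 0 := norm_ne_zero_iff.mpr hG
    have : ‖1 - s‖ * (|s.im| * ‖Gamma s‖) * ‖Gamma s‖⁻¹ = ‖1 - s‖ * |s.im| := by
      field_simp
    rw [this, sq]
    have := abs_nonneg s.im
    apply mul_le_mul h1 (by linarith) (by positivity) (by positivity)

lemma line_bound {A : ℝ} {n : ℕ} {w : ℂ} {F Λ : ℂ → ℂ} {C₀ : ℝ} (hA : 1 ≤ A) (hw : w = 1 ∨ w = -1)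
    (hF : Differentiable ℂ F) (h : IsCompleted A n w F Λ)
    (hb : ∀ s : ℂ, 2 ≤ s.re → ‖F s‖ ≤ Real.exp C₀) (s : ℂ) (h0 : s.re = 0) :
    ‖F s‖ ≤ A * ((1 + |s.im|) ^ 2) ^ n * Real.exp C₀ := by
  rw [fe_line hA hF h s h0]
  unfold R
  have hw1 : ‖w‖ = 1 := by rcases hw with rfl | rfl <;> simp
  have hA0 : 0 < A := by linarith
  have hp : 0 < 2 * Real.pi := by positivity
  rw [norm_mul, norm_mul, norm_mul, norm_pow, norm_mul, hw1, one_mul,
    norm_cpow_eq_rpow_re_of_pos hA0, norm_cpow_eq_rpow_re_of_pos hp]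
  have e1 : (1 - s).re = 1 := by simp [h0]
  have e2 : (2 * s - 2).re = -2 := by simp [h0]
  rw [e1, e2, Real.rpow_one]
  have h3 : (2 * Real.pi) ^ (-2 : ℝ) ≤ 1 := by
    apply Real.rpow_le_one_of_one_le_of_nonpos _ (by norm_num)
    have := Real.pi_gt_three
    linarith
  have h4 : (0 : ℝ) ≤ (2 * Real.pi) ^ (-2 : ℝ) := by positivity
  have h5 := gamma_ratio s h0
  have h6 := hb (2 - s) (by simp [h0])
  have h7 : (2 * Real.pi) ^ (-2 : ℝ) * ‖Gamma (2 - s) * (Gamma s)⁻¹‖ ≤ (1 + |s.im|) ^ 2 := by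
    calc _ ≤ 1 * ‖Gamma (2 - s) * (Gamma s)⁻¹‖ := by
          apply mul_le_mul_of_nonneg_right h3 (norm_nonneg _)
      _ ≤ _ := by rw [one_mul]; exact h5
  have h8 : ((2 * Real.pi) ^ (-2 : ℝ) * ‖Gamma (2 - s) * (Gamma s)⁻¹‖) ^ n ≤ ((1 + |s.im|) ^ 2) ^ n :=
    pow_le_pow_left₀ (by positivity) h7 n
  gcongr

lemma growth (C : ℝ) (k : ℕ) : ∃ B : ℝ, ∀ t : ℝ, 0 ≤ t →
    Real.exp (C * (3 + t) ^ k) ≤ Real.exp (B * Real.exp (1 * t)) := by
  refine ⟨|C| * (k.factorial * Real.exp 3), fun t ht => ?_⟩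
  apply Real.exp_le_exp.mpr
  have h1 : (3 + t) ^ k ≤ k.factorial * Real.exp (3 + t) := by
    have := Real.pow_div_factorial_le_exp (3 + t) (by linarith) k
    rw [div_le_iff₀ (by positivity)] at this
    linarith
  calc C * (3 + t) ^ k ≤ |C| * (3 + t) ^ k := by
        apply mul_le_mul_of_nonneg_right (le_abs_self _) (by positivity)
    _ ≤ |C| * (k.factorial * Real.exp (3 + t)) := by
        apply mul_le_mul_of_nonneg_left h1 (abs_nonneg _)
    _ = _ := by rw [Real.exp_add, one_mul]; ring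

theorem strip {A : ℝ} {n : ℕ} {w : ℂ} {F Λ : ℂ → ℂ} {C₀ : ℝ} (hA : 1 ≤ A) (hw : w = 1 ∨ w = -1)
    (hF : Differentiable ℂ F) (hfo : FiniteOrder F) (h : IsCompleted A n w F Λ)
    (hb : ∀ s : ℂ, 2 ≤ s.re → ‖F s‖ ≤ Real.exp C₀) (s : ℂ) (h0 : 0 ≤ s.re) (h2 : s.re ≤ 2) :
    ‖F s * (A : ℂ) ^ (s / 2 - 1) / (s + 3) ^ (2 * n)‖ ≤ 2 ^ n * Real.exp C₀ := by
  have hA0 : 0 < A := by linarith
  have hA0' : (A : ℂ) ≠ 0 := by exact_mod_cast hA0.ne'
  have hne : ∀ z : ℂ, 0 ≤ z.re → z + 3 ≠ 0 := by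
    intro z hz h
    have := congrArg Complex.re h
    simp at this
    linarith
  have hdiff : ∀ z : ℂ, 0 ≤ z.re →
      DifferentiableAt ℂ (fun s : ℂ => F s * (A : ℂ) ^ (s / 2 - 1) / (s + 3) ^ (2 * n)) z := by
    intro z hz
    apply DifferentiableAt.div
    · apply (hF z).mul
      apply DifferentiableAt.const_cpow (by fun_prop) (Or.inl hA0')
    · fun_prop
    · exact pow_ne_zero _ (hne z hz)
  have hcl : closure (re ⁻¹' Ioo (0 : ℝ) 2) ⊆ {z : ℂ | 0 ≤ z.re} := by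
    apply closure_minimal
    · intro z hz; exact hz.1.le
    · exact isClosed_le continuous_const continuous_re
  obtain ⟨C, k, hCk⟩ := hfo
  obtain ⟨B, hB⟩ := growth |C| k
  refine PhragmenLindelof.vertical_strip (a := 0) (b := 2)
    (f := fun s : ℂ => F s * (A : ℂ) ^ (s / 2 - 1) / (s + 3) ^ (2 * n)) ?_ ?_ ?_ ?_ h0 h2
  · constructor
    · intro z hz
      exact (hdiff z hz.1.le).differentiableWithinAt
    · intro z hz
      exact (hdiff z (hcl hz)).continuousAt.continuousWithinAt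
  · refine ⟨1, ?_, B, ?_⟩
    · have := Real.pi_gt_three
      rw [lt_div_iff₀ (by norm_num)]; linarith
    · apply IsBigO.of_bound 1
      have : ∀ᶠ z : ℂ in comap (_root_.abs ∘ im) atTop ⊓ 𝓟 (re ⁻¹' Ioo 0 2),
          z ∈ (re ⁻¹' Ioo 0 2) := by
        apply Filter.Eventually.filter_mono inf_le_right
        exact mem_principal_self _
      filter_upwards [this] with z hz
      have hz0 : 0 < z.re := hz.1
      have hz2 : z.re < 2 := hz.2
      rw [one_mul, Real.norm_of_nonneg (Real.exp_pos _).le, norm_div, norm_mul, norm_pow,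
        norm_cpow_eq_rpow_re_of_pos hA0]
      have g1 : A ^ ((z / 2 - 1).re) ≤ 1 := by
        apply Real.rpow_le_one_of_one_le_of_nonpos hA
        simp; linarith
      have g2 : 1 ≤ ‖z + 3‖ := by
        calc (1 : ℝ) ≤ (z + 3).re := by simp; linarith
          _ ≤ ‖z + 3‖ := re_le_norm _
      have g3 : 1 ≤ ‖z + 3‖ ^ (2 * n) := one_le_pow₀ g2
      have g4 : ‖F z‖ ≤ Real.exp (|C| * (3 + |z.im|) ^ k) := by
        refine (hCk z).trans ?_
        apply Real.exp_le_exp.mpr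
        have hzn : ‖z‖ ≤ 2 + |z.im| := by
          calc ‖z‖ ≤ |z.re| + |z.im| := norm_le_abs_re_add_abs_im z
            _ ≤ _ := by rw [abs_of_pos hz0]; linarith
        calc C * (1 + ‖z‖) ^ k ≤ |C| * (1 + ‖z‖) ^ k := by
              apply mul_le_mul_of_nonneg_right (le_abs_self _) (by positivity)
          _ ≤ |C| * (3 + |z.im|) ^ k := by
              apply mul_le_mul_of_nonneg_left _ (abs_nonneg _)
              apply pow_le_pow_left₀ (by positivity)
              linarith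
      calc ‖F z‖ * A ^ ((z / 2 - 1).re) / ‖z + 3‖ ^ (2 * n)
          ≤ ‖F z‖ * A ^ ((z / 2 - 1).re) := by
            apply div_le_self (by positivity) g3
        _ ≤ ‖F z‖ * 1 := mul_le_mul_of_nonneg_left g1 (norm_nonneg _)
        _ ≤ Real.exp (|C| * (3 + |z.im|) ^ k) := by rw [mul_one]; exact g4
        _ ≤ _ := hB _ (abs_nonneg _)
  · intro z hz
    rw [norm_div, norm_mul, norm_pow, norm_cpow_eq_rpow_re_of_pos hA0]
    have e1 : (z / 2 - 1).re = -1 := by simp [hz]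
    rw [e1, Real.rpow_neg_one]
    have hn0 : 0 < ‖z + 3‖ := norm_pos_iff.mpr (hne z hz.ge)
    rw [div_le_iff₀ (by positivity)]
    have e2 : ‖z + 3‖ ^ 2 = 9 + z.im ^ 2 := by
      rw [← normSq_eq_norm_sq, normSq_apply]; simp [hz]; ring
    have e3 : (1 + |z.im|) ^ 2 ≤ 2 * ‖z + 3‖ ^ 2 := by
      rw [e2]
      have : |z.im| ^ 2 = z.im ^ 2 := sq_abs _
      nlinarith [sq_nonneg (1 - |z.im|)]
    have e4 : ((1 + |z.im|) ^ 2) ^ n ≤ (2 * ‖z + 3‖ ^ 2) ^ n :=
      pow_le_pow_left₀ (by positivity) e3 n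
    have e5 := line_bound hA hw hF h hb z hz
    calc ‖F z‖ * A⁻¹ ≤ (A * ((1 + |z.im|) ^ 2) ^ n * Real.exp C₀) * A⁻¹ := by
          apply mul_le_mul_of_nonneg_right e5 (by positivity)
      _ = ((1 + |z.im|) ^ 2) ^ n * Real.exp C₀ := by field_simp
      _ ≤ (2 * ‖z + 3‖ ^ 2) ^ n * Real.exp C₀ := by
          apply mul_le_mul_of_nonneg_right e4 (Real.exp_pos _).le
      _ = _ := by rw [mul_pow, pow_mul]; ring
  · intro z hz
    rw [norm_div, norm_mul, norm_pow, norm_cpow_eq_rpow_re_of_pos hA0]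
    have e1 : (z / 2 - 1).re = 0 := by simp [hz]
    rw [e1, Real.rpow_zero, mul_one]
    have g2 : 1 ≤ ‖z + 3‖ := by
      calc (1 : ℝ) ≤ (z + 3).re := by simp [hz]; norm_num
        _ ≤ ‖z + 3‖ := re_le_norm _
    have g3 : 1 ≤ ‖z + 3‖ ^ (2 * n) := one_le_pow₀ g2
    calc ‖F z‖ / ‖z + 3‖ ^ (2 * n) ≤ ‖F z‖ := div_le_self (norm_nonneg _) g3
      _ ≤ Real.exp C₀ := hb z hz.ge
      _ = 1 * Real.exp C₀ := (one_mul _).symm
      _ ≤ _ := by
          apply mul_le_mul_of_nonneg_right _ (Real.exp_pos _).le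
          exact one_le_pow₀ (by norm_num)

theorem t_FE : Pool.Agent.U309.ZF.S_FE := by
  intro n C₀
  refine ⟨1 + |C₀| + 5 * n, by positivity, ?_⟩
  intro A w F Λ hA hw hF hfo h hb s h0 h5
  have hA0 : 0 < A := by linarith
  have hlA : 0 ≤ Real.log A := Real.log_nonneg hA
  set t := |s.im| with ht
  have ht0 : 0 ≤ t := abs_nonneg _
  have hL : 1 ≤ Real.log (t + 3) := by
    rw [Real.le_log_iff_exp_le (by positivity)]
    have := Real.exp_one_lt_d9
    linarith
  have hexpL : Real.exp (Real.log (t + 3)) = t + 3 := Real.exp_log (by positivity)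
  by_cases h2 : s.re ≤ 2
  · have hs := strip hA hw hF hfo h hb s h0 h2
    rw [norm_div, norm_mul, norm_pow, norm_cpow_eq_rpow_re_of_pos hA0] at hs
    have hne : s + 3 ≠ 0 := by
      intro h
      have := congrArg Complex.re h
      simp at this
      linarith
    have hn0 : 0 < ‖s + 3‖ := norm_pos_iff.mpr hne
    rw [div_le_iff₀ (by positivity)] at hs
    have g1 : A⁻¹ ≤ A ^ ((s / 2 - 1).re) := by
      rw [← Real.rpow_neg_one]
      apply Real.rpow_le_rpow_of_exponent_le hA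
      simp; linarith
    have g2 : ‖s + 3‖ ≤ (t + 3) ^ 2 := by
      calc ‖s + 3‖ ≤ |(s + 3).re| + |(s + 3).im| := norm_le_abs_re_add_abs_im _
        _ ≤ 5 + t := by
            have : (s + 3).re = s.re + 3 := by simp
            have h' : (s + 3).im = s.im := by simp
            rw [this, h', abs_of_nonneg (by linarith)]
            linarith
        _ ≤ _ := by nlinarith
    have g3 : ‖F s‖ * A⁻¹ ≤ 2 ^ n * Real.exp C₀ * ((t + 3) ^ 2) ^ (2 * n) := by
      calc ‖F s‖ * A⁻¹ ≤ ‖F s‖ * A ^ ((s / 2 - 1).re) :=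
            mul_le_mul_of_nonneg_left g1 (norm_nonneg _)
        _ ≤ 2 ^ n * Real.exp C₀ * ‖s + 3‖ ^ (2 * n) := hs
        _ ≤ _ := by gcongr
    have g4 : ‖F s‖ ≤ A * (2 ^ n * Real.exp C₀ * ((t + 3) ^ 2) ^ (2 * n)) := by
      calc ‖F s‖ = A * (‖F s‖ * A⁻¹) := by field_simp
        _ ≤ _ := mul_le_mul_of_nonneg_left g3 hA0.le
    refine g4.trans ?_
    have g5 : (2 : ℝ) ^ n ≤ (t + 3) ^ n := pow_le_pow_left₀ (by norm_num) (by linarith) n
    have g6 : Real.exp C₀ ≤ Real.exp (|C₀| * Real.log (t + 3)) := by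
      apply Real.exp_le_exp.mpr
      calc C₀ ≤ |C₀| := le_abs_self _
        _ = |C₀| * 1 := (mul_one _).symm
        _ ≤ _ := mul_le_mul_of_nonneg_left hL (abs_nonneg _)
    have g7 : (t + 3) ^ n * Real.exp (|C₀| * Real.log (t + 3)) * ((t + 3) ^ 2) ^ (2 * n) =
        Real.exp ((|C₀| + 5 * n) * Real.log (t + 3)) := by
      have : (t + 3) ^ n * ((t + 3) ^ 2) ^ (2 * n) = Real.exp (5 * n * Real.log (t + 3)) := by
        rw [← pow_mul, ← pow_add]
        conv_lhs => rw [← hexpL]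
        rw [← Real.exp_nat_mul]
        congr 1
        push_cast
        ring
      calc _ = ((t + 3) ^ n * ((t + 3) ^ 2) ^ (2 * n)) * Real.exp (|C₀| * Real.log (t + 3)) := by
            ring
        _ = _ := by rw [this, ← Real.exp_add]; congr 1; ring
    calc A * (2 ^ n * Real.exp C₀ * ((t + 3) ^ 2) ^ (2 * n))
        ≤ A * ((t + 3) ^ n * Real.exp (|C₀| * Real.log (t + 3)) * ((t + 3) ^ 2) ^ (2 * n)) := by
          gcongr
      _ = Real.exp (Real.log A) * Real.exp ((|C₀| + 5 * n) * Real.log (t + 3)) := by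
          rw [g7, Real.exp_log hA0]
      _ = Real.exp (Real.log A + (|C₀| + 5 * n) * Real.log (t + 3)) := by rw [Real.exp_add]
      _ ≤ _ := by
          apply Real.exp_le_exp.mpr
          have e1 : Real.log A ≤ (1 + |C₀| + 5 * n) * Real.log A := by
            have : (1 : ℝ) ≤ 1 + |C₀| + 5 * n := by
              have := abs_nonneg C₀
              have h' : (0 : ℝ) ≤ 5 * n := by positivity
              linarith
            nlinarith
          nlinarith
  · have h2 : 2 < s.re := not_le.mp h2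
    refine (hb s h2.le).trans ?_
    apply Real.exp_le_exp.mpr
    have e1 : C₀ ≤ |C₀| := le_abs_self _
    have e2 := abs_nonneg C₀
    have e3 : (0 : ℝ) ≤ n := Nat.cast_nonneg n
    have e4 : |C₀| * 1 ≤ (1 + |C₀| + 5 * n) * (Real.log A + Real.log (t + 3)) := by
      apply mul_le_mul <;> nlinarith
    linarith

end Pool.Agent.U165.ZF.FE
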